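import Pool.Agent.N793.GP.Bh

/-! # Double character sums: one set without any coincidences controls all pairs of sets

Notation of the page: `S_χ(A, B) = ∑ a ∈ A, ∑ b ∈ B, χ (a + b)`.  The letter `F` is an arbitrary
family of characters (for instance all of them, or the Legendre symbols only).
-/

set_option autoImplicit false

namespace Pool.Agent.Results.MP_f6e9a2_nt.GeneralPosition

open Pool.Agent.N793.PG
open Pool.Agent.N793.GP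

/-- the conjecture of the page, word for word -/
def Conjecture : Prop :=
  ∀ ε : ℝ, 0 < ε → ∃ p₀ : ℕ, ∃ δ : ℝ, 0 < δ ∧
    ∀ p : ℕ, p.Prime → p₀ < p →
      ∀ A B : Finset (ZMod p),
        (p : ℝ) ^ ε < (A.card : ℝ) → (p : ℝ) ^ ε < (B.card : ℝ) →
        ∀ χ : MulChar (ZMod p) ℂ, χ ≠ 1 →
          ‖∑ a ∈ A, ∑ b ∈ B, χ (a + b)‖ ≤ (p : ℝ) ^ (-δ) * (A.card : ℝ) * (B.card : ℝ)

theorem conjecture_iff_saves : Conjecture ↔
    ∀ ε : ℝ, 0 < ε → ∃ δ : ℝ, 0 < δ ∧ Saves (fun _ _ => True) ε ε δ := by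
  constructor
  · intro h ε hε
    obtain ⟨p₀, δ, hδ, H⟩ := h ε hε
    exact ⟨δ, hδ, p₀, fun p hp hlt A B hA hB χ hχ _ => H p hp hlt A B hA hB χ hχ⟩
  · intro h ε hε
    obtain ⟨δ, hδ, p₀, H⟩ := h ε hε
    exact ⟨p₀, δ, hδ, fun p hp hlt A B hA hB χ hχ => H p hp hlt A B hA hB χ hχ trivial⟩

theorem result :
    -- (1) sampling in general position: finite form, any field, any bounded kernel
    (∀ (K : Type) [Field K] [DecidableEq K] (k : K → K → ℂ), (∀ x y, ‖k x y‖ ≤ 1) →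
      ∀ (A : Finset K) (n m D : ℕ) (Ps : Finset (MvPolynomial (Fin (n + 1)) K)),
        (∀ P ∈ Ps, P ≠ 0 ∧ P.totalDegree ≤ D) → A.Nonempty →
        4 * (m : ℝ) * ((Ps.card : ℝ) * D * (m : ℝ) ^ (n + 1) + (m : ℝ) ^ 2) / A.card <
          (m : ℝ) * (m - 1) * (‖∑ a ∈ A, ∑ b ∈ A, k a b‖ / (A.card : ℝ) ^ 2) →
        ∃ A' ⊆ A, 3 * m ≤ 4 * A'.card ∧ A'.card ≤ m ∧ GenPos Ps A' ∧
          (m : ℝ) * (m - 1) * (‖∑ a ∈ A, ∑ b ∈ A, k a b‖ / (A.card : ℝ) ^ 2) ≤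
            ‖∑ a ∈ A', ∑ b ∈ A', k a b‖ + m +
              4 * (m : ℝ) * ((Ps.card : ℝ) * D * (m : ℝ) ^ (n + 1) + (m : ℝ) ^ 2) / A.card) ∧
    -- (2) one set in general position, above `p ^ ε₁`, controls all pairs of sets above `p ^ ε`
    (∀ (F : ∀ p : ℕ, MulChar (ZMod p) ℂ → Prop) (n : ℕ)
      (Ps : ∀ p : ℕ, Finset (MvPolynomial (Fin (n + 1)) (ZMod p))) (κ ε₁ δ₁ ε δ : ℝ),
        Few Ps κ → 0 < ε₁ → max (n * ε₁ + κ) ε₁ < ε →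
        δ < min (min δ₁ ε₁) ((ε - max (n * ε₁ + κ) ε₁) / 2) →
          SavesGP F Ps ε₁ δ₁ → Saves F ε ε δ) ∧
    -- (3) the same, for sets without coincidences between sums or products of `h` elements
    (∀ (F : ∀ p : ℕ, MulChar (ZMod p) ℂ → Prop) (h : ℕ) (ε₁ δ₁ ε δ : ℝ), 1 ≤ h → 0 < ε₁ →
      (2 * (h : ℝ) - 1) * ε₁ < ε →
        δ < min (min δ₁ ε₁) ((ε - (2 * (h : ℝ) - 1) * ε₁) / 2) →
          SavesB h F ε₁ δ₁ → Saves F ε ε δ) ∧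
    -- (4) the conjecture for the characters in `F` is decided on one set in general position
    (∀ (F : ∀ p : ℕ, MulChar (ZMod p) ℂ → Prop) (n : ℕ)
      (Ps : ∀ p : ℕ, Finset (MvPolynomial (Fin (n + 1)) (ZMod p))),
        (∀ κ : ℝ, 0 < κ → Few Ps κ) →
          ((∀ ε : ℝ, 0 < ε → ∃ δ : ℝ, 0 < δ ∧ Saves F ε ε δ) ↔
            ∀ ε : ℝ, 0 < ε → ∃ δ : ℝ, 0 < δ ∧ SavesGP F Ps ε δ)) ∧
    -- (5) the conjecture of the page is decided on one set in general position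
    (∀ (n : ℕ) (Ps : ∀ p : ℕ, Finset (MvPolynomial (Fin (n + 1)) (ZMod p))),
      (∀ κ : ℝ, 0 < κ → Few Ps κ) →
        (Conjecture ↔ ∀ ε : ℝ, 0 < ε → ∃ p₀ : ℕ, ∃ δ : ℝ, 0 < δ ∧
          ∀ p : ℕ, p.Prime → p₀ < p → ∀ A : Finset (ZMod p), (p : ℝ) ^ ε < (A.card : ℝ) →
            GenPos (Ps p) A → ∀ χ : MulChar (ZMod p) ℂ, χ ≠ 1 →
              ‖∑ a ∈ A, ∑ b ∈ A, χ (a + b)‖ ≤ (p : ℝ) ^ (-δ) * (A.card : ℝ) ^ 2)) ∧
    -- (6) the conjecture of the page is decided on one set which is an additive and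
    -- multiplicative `B_h` set (for `h = 2`: an additive and multiplicative Sidon set)
    (∀ h : ℕ, 1 ≤ h →
      (Conjecture ↔ ∀ ε : ℝ, 0 < ε → ∃ p₀ : ℕ, ∃ δ : ℝ, 0 < δ ∧
        ∀ p : ℕ, p.Prime → p₀ < p → ∀ A : Finset (ZMod p), (p : ℝ) ^ ε < (A.card : ℝ) →
          AddB h A → MulB h A → ∀ χ : MulChar (ZMod p) ℂ, χ ≠ 1 →
            ‖∑ a ∈ A, ∑ b ∈ A, χ (a + b)‖ ≤ (p : ℝ) ^ (-δ) * (A.card : ℝ) ^ 2)) := by
  refine ⟨?_, ?_, ?_, ?_, ?_, ?_⟩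
  · intro K _ _ k hk A n m D Ps hPs hA hbig
    exact sample k hk A n m D Ps hPs hA hbig
  · intro F n Ps κ ε₁ δ₁ ε δ hPs h0 h1 h2 H
    exact H.saves hPs h0 h1 h2
  · intro F h ε₁ δ₁ ε δ hh h0 h1 h2 H
    obtain ⟨k, rfl⟩ : ∃ k, h = k + 1 := ⟨h - 1, by omega⟩
    have e : (2 * (((k + 1 : ℕ) : ℝ)) - 1) = 2 * (k : ℝ) + 1 := by push_cast; ring
    rw [e] at h1 h2
    exact H.saves h0 h1 h2
  · intro F n Ps hPs
    exact exists_saves hPs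
  · intro n Ps hPs
    rw [conjecture_iff_saves, exists_saves hPs]
    constructor
    · intro h ε hε
      obtain ⟨δ, hδ, p₀, H⟩ := h ε hε
      exact ⟨p₀, δ, hδ, fun p hp hlt A hA hgp χ hχ => H p hp hlt A hA hgp χ hχ trivial⟩
    · intro h ε hε
      obtain ⟨p₀, δ, hδ, H⟩ := h ε hε
      exact ⟨δ, hδ, p₀, fun p hp hlt A hA hgp χ hχ _ => H p hp hlt A hA hgp χ hχ⟩
  · intro h hh
    obtain ⟨k, rfl⟩ : ∃ k, h = k + 1 := ⟨h - 1, by omega⟩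
    rw [conjecture_iff_saves, exists_savesB k]
    constructor
    · intro h ε hε
      obtain ⟨δ, hδ, p₀, H⟩ := h ε hε
      exact ⟨p₀, δ, hδ, fun p hp hlt A hA h1 h2 χ hχ => H p hp hlt A hA h1 h2 χ hχ trivial⟩
    · intro h ε hε
      obtain ⟨p₀, δ, hδ, H⟩ := h ε hε
      exact ⟨δ, hδ, p₀, fun p hp hlt A hA h1 h2 χ hχ _ => H p hp hlt A hA h1 h2 χ hχ⟩

end Pool.Agent.Results.MP_f6e9a2_nt.GeneralPosition
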