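import Pool.Agent.N793.PG.Asym

/-! # Double character sums: one pair of sizes controls all smaller sizes

Notation of the page: `S_χ(A, B) = ∑ a ∈ A, ∑ b ∈ B, χ (a + b)`.  The letter `F` is an arbitrary
family of characters (for instance all of them, or the Legendre symbols only).
-/

set_option autoImplicit false

namespace Pool.Agent.Results.MP_f6e9a2_nt.OneSize

open Pool.Agent.N793.PG

theorem result :
    -- (1) the finite amplification inequality
    (∀ (p : ℕ), p.Prime → ∀ χ : MulChar (ZMod p) ℂ, χ ≠ 1 →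
      ∀ (A B : Finset (ZMod p)) (m M N K L : ℕ), 1 ≤ m → 1 ≤ M → 1 ≤ N →
        M ≤ A.card → N ≤ B.card → m * M ≤ K → m * N ≤ L → 2 * K ≤ p → 2 * L ≤ p →
          ∃ A' B' : Finset (ZMod p), A'.card = K ∧ B'.card = L ∧
            ‖∑ a ∈ A, ∑ b ∈ B, χ (a + b)‖ ≤ (A.card : ℝ) * (B.card : ℝ) *
              (4 * ‖∑ a ∈ A', ∑ b ∈ B', χ (a + b)‖ / ((m : ℝ) * M * N) +
                Real.sqrt (2 * m / M) + Real.sqrt (2 * m / N))) ∧
    -- (2) a saving at one pair of sizes gives savings at all smaller pairs on its line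
    (∀ (F : ∀ p : ℕ, MulChar (ZMod p) ℂ → Prop) (β β' δ h δ' : ℝ), 0 ≤ h → h < β → h < β' →
      β < 1 → β' < 1 → δ' < min δ (min (β / 2) (β' / 2)) - h →
        OneSize F β β' δ → Saves F (β - h) (β' - h) δ') ∧
    -- (3) a power saving below `p ^ γ` is decided at one larger size
    (∀ (F : ∀ p : ℕ, MulChar (ZMod p) ℂ → Prop) (γ : ℝ), 0 < γ → γ ≤ 1 / 2 →
      ((∃ c δ : ℝ, 0 < c ∧ 0 < δ ∧ Saves F (γ - c) (γ - c) δ) ↔
        ∃ β δ : ℝ, γ < β ∧ β < 2 * γ ∧ β - γ < δ ∧ OneSize F β β δ)) ∧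
    -- (4) the square-root barrier `|A| |B| = p`
    (∀ (F : ∀ p : ℕ, MulChar (ZMod p) ℂ → Prop) (u v : ℝ), 0 < u → 0 < v → u + v = 1 →
      ((∃ c δ : ℝ, 0 < c ∧ 0 < δ ∧ Saves F (u - c) (v - c) δ) ↔
        ∃ s δ : ℝ, 0 < s ∧ u + s < 1 ∧ v + s < 1 ∧ 0 < δ ∧
          BeatsClassical F (u + s) (v + s) δ)) ∧
    -- (5) improvements of the classical bound descend
    (∀ (F : ∀ p : ℕ, MulChar (ZMod p) ℂ → Prop) (β β' δ h δ' : ℝ), 0 ≤ h → h < β → h < β' →
      β < 1 → β' < 1 → δ' < min δ (min ((1 - β) / 2) ((1 - β') / 2)) →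
        BeatsClassical F β β' δ → BeatsClassical F (β - h) (β' - h) δ') ∧
    -- (6) the conjecture of the page
    ((∀ ε : ℝ, 0 < ε → ∃ p₀ : ℕ, ∃ δ : ℝ, 0 < δ ∧
        ∀ p : ℕ, p.Prime → p₀ < p →
          ∀ A B : Finset (ZMod p),
            (p : ℝ) ^ ε < (A.card : ℝ) → (p : ℝ) ^ ε < (B.card : ℝ) →
            ∀ χ : MulChar (ZMod p) ℂ, χ ≠ 1 →
              ‖∑ a ∈ A, ∑ b ∈ B, χ (a + b)‖ ≤ (p : ℝ) ^ (-δ) * (A.card : ℝ) * (B.card : ℝ)) ↔
      ∀ γ : ℝ, 0 < γ → γ ≤ 1 / 2 →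
        ∃ β δ : ℝ, γ < β ∧ β < 2 * γ ∧ β - γ < δ ∧ OneSize (fun _ _ => True) β β δ) := by
  refine ⟨?_, ?_, fun F γ h1 h2 => saves_below_iff h1 h2, fun F u v h1 h2 h3 => barrier h1 h2 h3,
    ?_, conjecture_iff⟩
  · intro p hp χ hχ A B m M N K L hm hM hN hA hB hK hL hpK hpL
    have : Fact p.Prime := ⟨hp⟩
    obtain ⟨A', B', hA', hB', h⟩ := finite χ hχ A B m M N K L hm hM hN hA hB hK hL hpK hpL
    refine ⟨A', B', hA', hB', ?_⟩
    change ‖dsum χ A B‖ ≤ _ * (4 * ‖dsum χ A' B'‖ / _ + _ + _)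
    have hm0 : (0 : ℝ) < m := by exact_mod_cast hm
    have hM0 : (0 : ℝ) < M := by exact_mod_cast hM
    have hN0 : (0 : ℝ) < N := by exact_mod_cast hN
    have hT : (0 : ℝ) < (m : ℝ) * M * N := by positivity
    refine le_of_mul_le_mul_left (h.trans (le_of_eq ?_)) hT
    have e1 : Real.sqrt (2 * m / M) = Real.sqrt (2 * m) / Real.sqrt M :=
      Real.sqrt_div (by positivity) _
    have e2 : Real.sqrt (2 * m / N) = Real.sqrt (2 * m) / Real.sqrt N :=
      Real.sqrt_div (by positivity) _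
    have hM2 : (M : ℝ) = Real.sqrt M ^ 2 := (Real.sq_sqrt hM0.le).symm
    have hN2 : (N : ℝ) = Real.sqrt N ^ 2 := (Real.sq_sqrt hN0.le).symm
    have hsM : 0 < Real.sqrt M := Real.sqrt_pos.2 hM0
    have hsN : 0 < Real.sqrt N := Real.sqrt_pos.2 hN0
    rw [e1, e2]
    generalize Real.sqrt (M : ℝ) = x at *
    generalize Real.sqrt (N : ℝ) = y at *
    rw [hM2, hN2]
    field_simp
    ring
  · intro F β β' δ h δ' hh h1 h2 h3 h4 h5 H
    have h6 := min_le_left δ (min (β / 2) (β' / 2))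
    have h7 := (min_le_right δ (min (β / 2) (β' / 2))).trans (min_le_left _ _)
    have h8 := (min_le_right δ (min (β / 2) (β' / 2))).trans (min_le_right _ _)
    exact H.descend hh h1 h2 h3 h4 (by linarith) (by linarith) (by linarith)
  · intro F β β' δ h δ' hh h1 h2 h3 h4 h5 H
    have h6 := min_le_left δ (min ((1 - β) / 2) ((1 - β') / 2))
    have h7 := (min_le_right δ (min ((1 - β) / 2) ((1 - β') / 2))).trans (min_le_left _ _)
    have h8 := (min_le_right δ (min ((1 - β) / 2) ((1 - β') / 2))).trans (min_le_right _ _)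
    exact H.descend hh h1 h2 h3 h4 (by linarith) (by linarith) (by linarith)

end Pool.Agent.Results.MP_f6e9a2_nt.OneSize
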