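import Mathlib
import Pool.Agent.N397.PQ.Main

/-!
# Double character sums: two unrelated sets of bounded doubling with `|P||Q| ≥ p^(1/2+ε)`

Let `P`, `Q` be sets of residues of bounded doubling, with at least `p^ε` elements each and `|P||Q| ≥ p^(1/2+ε)`;
nothing relates `P` to `Q` (their generators and dimensions may be different, one of them may be tiny). For every
nontrivial character the bound of the conjecture holds for `A = P`, `B = Q`, for all sets `A` nearly invariant under
`P` and `B` nearly invariant under `Q`, for all subsets of these sets of relative density at least `p^(-τ)`, and with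
arbitrary weights. The classical range is `|A||B| ≥ p^(1+ε)`; the starting files have the case `A = B`, `P = Q`
(`|P| ≥ p^(1/4+ε)`), the case where the sums `a + b` do not concentrate on a set with `p^(1/2+ε)` elements, and the
case of progressions (dimension one).

Outline: `P` is covered by boundedly many translates of a generalized progression of its size (Freiman's theorem in
the field with `p` elements, starting files), so `A` is covered by at most `p^τ |A| / |P|` translates; the bilinear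
form over translates of two generalized progressions `R`, `R'` with `|R||R'| ≥ p^(1/2+ε)` is the theorem
`Pool.Agent.TH7.PG.core` of the library of this repository, which no hand-in used (an amplification by small
multiples and Weil's bound for high moments).
-/

set_option autoImplicit false

namespace Pool.Agent.Results.MP_f6e9a2_nt.TwoBoundedDoubling

open scoped Pointwise

/-- For all `ε > 0` and `K` there are `τ > 0` and `p₀` such that for every prime `p ≥ p₀`, every nontrivial
character `χ` modulo `p`, all sets `P`, `Q` with `|P|, |Q| ≥ p^ε`, `|P||Q| ≥ p^(1/2+ε)`, `|P+P| ≤ K |P|`,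
`|Q+Q| ≤ K |Q|`, and all sets `A`, `B` with `|A+P| ≤ p^τ |A|`, `|B+Q| ≤ p^τ |B|`:
* for all weights `f`, `g` the bilinear form `∑ f(a) g(b) χ(a+b)` over `A × B` is at most
  `p^(-τ) (|A||B|)^(1/2) ‖f‖₂ ‖g‖₂`;
* `|∑_{a ∈ A', b ∈ B'} χ(a+b)| ≤ p^(-τ) |A'||B'|` for all subsets `A'` of `A` with `|A| ≤ p^τ |A'|` and `B'` of `B`
  with `|B| ≤ p^τ |B'|` (for instance `A' = A = P`, `B' = B = Q`). -/
theorem result :
    ∀ ε K : ℝ, 0 < ε →
      ∃ τ : ℝ, 0 < τ ∧ ∃ p₀ : ℕ, ∀ p : ℕ, p.Prime → p₀ ≤ p →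
        ∀ χ : DirichletCharacter ℂ p, χ ≠ 1 →
        ∀ A B P Q : Finset (ZMod p), (p : ℝ) ^ ε ≤ P.card → (p : ℝ) ^ ε ≤ Q.card →
          (p : ℝ) ^ (1 / 2 + ε) ≤ (P.card : ℝ) * Q.card →
          ((P + P).card : ℝ) ≤ K * P.card → ((Q + Q).card : ℝ) ≤ K * Q.card →
          ((A + P).card : ℝ) ≤ (p : ℝ) ^ τ * A.card → ((B + Q).card : ℝ) ≤ (p : ℝ) ^ τ * B.card →
          (∀ f g : ZMod p → ℂ,
            ‖∑ a ∈ A, ∑ b ∈ B, f a * g b * χ (a + b)‖ ≤
              (p : ℝ) ^ (-τ) * (Real.sqrt (A.card * B.card) *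
                Real.sqrt ((∑ a ∈ A, ‖f a‖ ^ 2) * ∑ b ∈ B, ‖g b‖ ^ 2))) ∧
          (∀ A' B' : Finset (ZMod p), A' ⊆ A → B' ⊆ B →
            (A.card : ℝ) ≤ (p : ℝ) ^ τ * A'.card → (B.card : ℝ) ≤ (p : ℝ) ^ τ * B'.card →
            ‖∑ a ∈ A', ∑ b ∈ B', χ (a + b)‖ ≤ (p : ℝ) ^ (-τ) * (A'.card * B'.card)) := by
  classical
  intro ε K hε
  obtain ⟨τ, hτ, p₀, h⟩ := Pool.Agent.N397.PQ.main ε K hε
  refine ⟨τ, hτ, p₀, ?_⟩
  intro p hp hp₀ χ hχ A B P Q h1 h2 h3 h4 h5 h6 h7
  have : Fact p.Prime := ⟨hp⟩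
  have hp1 : (1 : ℝ) ≤ p := by exact_mod_cast hp.one_lt.le
  have hp0 : (0 : ℝ) < p := by linarith
  have h8 := h p hp₀ χ hχ A B P Q h1 h2 h3 h4 h5 h6 h7
  constructor
  · intro f g
    rw [Real.sqrt_mul (Nat.cast_nonneg _),
      Real.sqrt_mul (Finset.sum_nonneg fun a _ => by positivity)]
    refine (h8 f g).trans ?_
    apply mul_le_mul_of_nonneg_right _ (by positivity)
    exact Real.rpow_le_rpow_of_exponent_le hp1 (by linarith)
  · intro A' B' hA' hB' hAA' hBB'
    have h9 := h8 (fun a => if a ∈ A' then 1 else 0) (fun b => if b ∈ B' then 1 else 0)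
    have e1 : ∑ a ∈ A, ∑ b ∈ B, (if a ∈ A' then (1 : ℂ) else 0) * (if b ∈ B' then (1 : ℂ) else 0) *
        χ (a + b) = ∑ a ∈ A', ∑ b ∈ B', χ (a + b) := by
      rw [← Finset.sum_subset hA' (fun a _ ha => by simp [if_neg ha])]
      refine Finset.sum_congr rfl fun a ha => ?_
      rw [← Finset.sum_subset hB' (fun b _ hb => by simp [if_neg hb])]
      refine Finset.sum_congr rfl fun b hb => ?_
      rw [if_pos ha, if_pos hb, one_mul, one_mul]
    have e2 : ∑ a ∈ A, ‖(if a ∈ A' then (1 : ℂ) else 0)‖ ^ 2 = A'.card := by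
      rw [← Finset.sum_subset hA' (fun a _ ha => by simp [if_neg ha])]
      rw [Finset.sum_congr rfl fun a ha => show ‖(if a ∈ A' then (1 : ℂ) else 0)‖ ^ 2 = (1 : ℝ) by
        rw [if_pos ha]; simp]
      simp
    have e3 : ∑ b ∈ B, ‖(if b ∈ B' then (1 : ℂ) else 0)‖ ^ 2 = B'.card := by
      rw [← Finset.sum_subset hB' (fun b _ hb => by simp [if_neg hb])]
      rw [Finset.sum_congr rfl fun b hb => show ‖(if b ∈ B' then (1 : ℂ) else 0)‖ ^ 2 = (1 : ℝ) by
        rw [if_pos hb]; simp]
      simp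
    rw [e1, e2, e3] at h9
    refine h9.trans ?_
    have key : ∀ X X' : Finset (ZMod p), (X.card : ℝ) ≤ (p : ℝ) ^ τ * X'.card →
        Real.sqrt X.card * Real.sqrt X'.card ≤ (p : ℝ) ^ (τ / 2) * X'.card := by
      intro X X' hX
      rw [← Real.sqrt_mul (Nat.cast_nonneg _)]
      refine Real.sqrt_le_iff.2 ⟨by positivity, ?_⟩
      have a1 : ((p : ℝ) ^ (τ / 2)) ^ 2 = (p : ℝ) ^ τ := by
        rw [← Real.rpow_natCast, ← Real.rpow_mul hp0.le]
        congr 1
        push_cast
        ring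
      rw [mul_pow, a1, sq (X'.card : ℝ), ← mul_assoc]
      exact mul_le_mul_of_nonneg_right hX (Nat.cast_nonneg _)
    have k1 := key A A' hAA'
    have k2 := key B B' hBB'
    calc (p : ℝ) ^ (-(2 * τ)) * ((Real.sqrt A.card * Real.sqrt B.card) *
          (Real.sqrt A'.card * Real.sqrt B'.card))
        = (p : ℝ) ^ (-(2 * τ)) * ((Real.sqrt A.card * Real.sqrt A'.card) *
          (Real.sqrt B.card * Real.sqrt B'.card)) := by ring
      _ ≤ (p : ℝ) ^ (-(2 * τ)) * (((p : ℝ) ^ (τ / 2) * A'.card) * ((p : ℝ) ^ (τ / 2) * B'.card)) := by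
          apply mul_le_mul_of_nonneg_left _ (by positivity)
          exact mul_le_mul k1 k2 (by positivity) (by positivity)
      _ = (p : ℝ) ^ (-(2 * τ) + (τ / 2 + τ / 2)) * (A'.card * B'.card) := by
          rw [Real.rpow_add hp0, Real.rpow_add hp0]
          ring
      _ = (p : ℝ) ^ (-τ) * (A'.card * B'.card) := by
          congr 2
          ring

end Pool.Agent.Results.MP_f6e9a2_nt.TwoBoundedDoubling
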