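import Pool.Agent.N793.PG.TAsym

/-! # Double character sums: unions of long intervals control all sets

Notation of the page: `S_χ(A, B) = ∑ a ∈ A, ∑ b ∈ B, χ (a + b)`.  The letter `F` is an arbitrary
family of characters (for instance all of them, or the Legendre symbols only).  A pair `(g, s)` with
`χ g = 1` stands for the two maps `a ↦ g a + s` and `b ↦ g b - s`, which together do not change
`χ (a + b)`.
-/

set_option autoImplicit false

namespace Pool.Agent.Results.MP_f6e9a2_nt.UnionsOfIntervals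

open Pool.Agent.N793.PG

/-- `A + [0, m)`: the union of the intervals of length `m` which start at the elements of `A` -/
noncomputable def rightOf {p : ℕ} (A : Finset (ZMod p)) (m : ℕ) : Finset (ZMod p) :=
  (A ×ˢ Finset.range m).image fun x => x.1 + ((x.2 : ℕ) : ZMod p)

/-- `B - [0, m)`: the union of the intervals of length `m` which end at the elements of `B` -/
noncomputable def leftOf {p : ℕ} (B : Finset (ZMod p)) (m : ℕ) : Finset (ZMod p) :=
  (B ×ˢ Finset.range m).image fun x => x.1 - ((x.2 : ℕ) : ZMod p)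

/-- The bound `p ^ (-δ) (m |A|) (m |B|)` for the unions `A + [0, m)`, `B - [0, m)` of intervals of
length `m = ⌈p ^ h⌉`, where `A` and `B` have exactly `⌈p ^ u⌉` and `⌈p ^ v⌉` elements. -/
def IntervalUnions (F : ∀ p : ℕ, MulChar (ZMod p) ℂ → Prop) (h u v δ : ℝ) : Prop :=
  ∃ p₀ : ℕ, ∀ p : ℕ, p.Prime → p₀ < p → ∀ A B : Finset (ZMod p),
    A.card = ⌈(p : ℝ) ^ u⌉₊ → B.card = ⌈(p : ℝ) ^ v⌉₊ →
      ∀ χ : MulChar (ZMod p) ℂ, χ ≠ 1 → F p χ →
        ‖∑ x ∈ rightOf A ⌈(p : ℝ) ^ h⌉₊, ∑ y ∈ leftOf B ⌈(p : ℝ) ^ h⌉₊, χ (x + y)‖ ≤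
          (p : ℝ) ^ (-δ) * ((⌈(p : ℝ) ^ h⌉₊ : ℝ) * (A.card : ℝ)) *
            ((⌈(p : ℝ) ^ h⌉₊ : ℝ) * (B.card : ℝ))

theorem up_intervals {p : ℕ} (h : ℝ) (χ : MulChar (ZMod p) ℂ) (A : Finset (ZMod p)) :
    up (intervals h p χ) A = rightOf A ⌈(p : ℝ) ^ h⌉₊ := by
  unfold up intervals rightOf
  ext x
  simp only [Finset.mem_biUnion, Finset.mem_image, Finset.mem_product]
  constructor
  · rintro ⟨l, ⟨s, hs, rfl⟩, a, ha, rfl⟩
    exact ⟨(a, s), ⟨ha, hs⟩, by simp⟩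
  · rintro ⟨⟨a, s⟩, ⟨ha, hs⟩, rfl⟩
    exact ⟨(1, (s : ZMod p)), ⟨s, hs, rfl⟩, a, ha, by simp⟩

theorem down_intervals {p : ℕ} (h : ℝ) (χ : MulChar (ZMod p) ℂ) (A : Finset (ZMod p)) :
    down (intervals h p χ) A = leftOf A ⌈(p : ℝ) ^ h⌉₊ := by
  unfold down intervals leftOf
  ext x
  simp only [Finset.mem_biUnion, Finset.mem_image, Finset.mem_product]
  constructor
  · rintro ⟨l, ⟨s, hs, rfl⟩, a, ha, rfl⟩
    exact ⟨(a, s), ⟨ha, hs⟩, by simp⟩
  · rintro ⟨⟨a, s⟩, ⟨ha, hs⟩, rfl⟩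
    exact ⟨(1, (s : ZMod p)), ⟨s, hs, rfl⟩, a, ha, by simp⟩

theorem intervalUnions_iff (F : ∀ p : ℕ, MulChar (ZMod p) ℂ → Prop) {h : ℝ} (h0 : 0 < h)
    (h1 : h < 1) (u v δ : ℝ) : IntervalUnions F h u v δ ↔ Struct F (intervals h) u v δ := by
  unfold IntervalUnions Struct
  constructor
  · rintro ⟨p₀, H⟩
    refine ⟨p₀, fun p hp hlt A B hA hB χ hχ hF => ?_⟩
    rw [up_intervals, down_intervals, (intervals_system h h0 h1 p hp χ hχ).2]
    exact H p hp hlt A B hA hB χ hχ hF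
  · rintro ⟨p₀, H⟩
    refine ⟨p₀, fun p hp hlt A B hA hB χ hχ hF => ?_⟩
    have := H p hp hlt A B hA hB χ hχ hF
    rw [up_intervals, down_intervals, (intervals_system h h0 h1 p hp χ hχ).2] at this
    exact this

theorem result :
    -- (1) finite form: any prescribed set of `m` matched affine maps
    (∀ p : ℕ, p.Prime → ∀ χ : MulChar (ZMod p) ℂ, χ ≠ 1 →
      ∀ (Λ : Finset (ZMod p × ZMod p)) (A B : Finset (ZMod p)), (∀ l ∈ Λ, χ l.1 = 1) →
        Λ.Nonempty → A.Nonempty → B.Nonempty →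
        2 * (Λ.card * A.card) ≤ p → 2 * (Λ.card * B.card) ≤ p →
          ∃ d t : ZMod p, d ≠ 0 ∧
            ‖∑ a ∈ A, ∑ b ∈ B, χ (a + b)‖ / ((A.card : ℝ) * B.card) ≤
              2 * ‖∑ x ∈ up Λ (A.image fun a => d * a + t),
                ∑ y ∈ down Λ (B.image fun b => d * b - t), χ (x + y)‖ /
                  ((Λ.card : ℝ) * A.card * B.card) +
              2 * Real.sqrt (2 * Λ.card / A.card) + 2 * Real.sqrt (2 * Λ.card / B.card)) ∧
    -- (2) a power saving for all sets above `(p ^ (u - c), p ^ (v - c))` is decided on the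
    -- structured sets of any system of templates
    (∀ (F : ∀ p : ℕ, MulChar (ZMod p) ℂ → Prop)
      (Λ : ℝ → ∀ p : ℕ, MulChar (ZMod p) ℂ → Finset (ZMod p × ZMod p)), TemplateSystem Λ →
      ∀ u v : ℝ, 0 < u → 0 < v → u < 1 → v < 1 →
        ((∃ c δ : ℝ, 0 < c ∧ 0 < δ ∧ Saves F (u - c) (v - c) δ) ↔
          ∃ h δ : ℝ, 0 < h ∧ h < min (min u v) (min (1 - u) (1 - v)) ∧ h < δ ∧
            Struct F (Λ h) u v δ)) ∧
    -- (3) the conjecture of the page is decided on the structured sets of any system of templates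
    (∀ Λ : ℝ → ∀ p : ℕ, MulChar (ZMod p) ℂ → Finset (ZMod p × ZMod p), TemplateSystem Λ →
      ((∀ ε : ℝ, 0 < ε → ∃ p₀ : ℕ, ∃ δ : ℝ, 0 < δ ∧
        ∀ p : ℕ, p.Prime → p₀ < p →
          ∀ A B : Finset (ZMod p),
            (p : ℝ) ^ ε < (A.card : ℝ) → (p : ℝ) ^ ε < (B.card : ℝ) →
            ∀ χ : MulChar (ZMod p) ℂ, χ ≠ 1 →
              ‖∑ a ∈ A, ∑ b ∈ B, χ (a + b)‖ ≤ (p : ℝ) ^ (-δ) * (A.card : ℝ) * (B.card : ℝ)) ↔
        ∀ γ : ℝ, 0 < γ → γ ≤ 1 / 2 →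
          ∃ h δ : ℝ, 0 < h ∧ h < γ ∧ h < δ ∧ Struct (fun _ _ => True) (Λ h) γ γ δ)) ∧
    -- (4) unions of long intervals, all sets above `(p ^ (u - c), p ^ (v - c))`
    (∀ (F : ∀ p : ℕ, MulChar (ZMod p) ℂ → Prop) (u v : ℝ), 0 < u → 0 < v → u < 1 → v < 1 →
      ((∃ c δ : ℝ, 0 < c ∧ 0 < δ ∧ Saves F (u - c) (v - c) δ) ↔
        ∃ h δ : ℝ, 0 < h ∧ h < min (min u v) (min (1 - u) (1 - v)) ∧ h < δ ∧
          IntervalUnions F h u v δ)) ∧
    -- (5) the conjecture of the page and unions of long intervals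
    ((∀ ε : ℝ, 0 < ε → ∃ p₀ : ℕ, ∃ δ : ℝ, 0 < δ ∧
        ∀ p : ℕ, p.Prime → p₀ < p →
          ∀ A B : Finset (ZMod p),
            (p : ℝ) ^ ε < (A.card : ℝ) → (p : ℝ) ^ ε < (B.card : ℝ) →
            ∀ χ : MulChar (ZMod p) ℂ, χ ≠ 1 →
              ‖∑ a ∈ A, ∑ b ∈ B, χ (a + b)‖ ≤ (p : ℝ) ^ (-δ) * (A.card : ℝ) * (B.card : ℝ)) ↔
      ∀ γ : ℝ, 0 < γ → γ ≤ 1 / 2 →
        ∃ h δ : ℝ, 0 < h ∧ h < γ ∧ h < δ ∧ IntervalUnions (fun _ _ => True) h γ γ δ) := by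
  refine ⟨?_, fun F Λ hΛ u v h1 h2 h3 h4 => struct_iff hΛ h1 h2 h3 h4,
    fun Λ hΛ => conj_struct hΛ, ?_, ?_⟩
  · intro p hp χ hχ Λ A B hΛ hne hAne hBne hpA hpB
    have : Fact p.Prime := ⟨hp⟩
    have hm1 : 1 ≤ Λ.card := Finset.card_pos.2 hne
    have hA1 : 1 ≤ A.card := Finset.card_pos.2 hAne
    have hB1 : 1 ≤ B.card := Finset.card_pos.2 hBne
    obtain ⟨d, t, hd, h⟩ := template χ hχ Λ hΛ A B Λ.card A.card B.card rfl hm1 hA1 hB1 rfl rfl
      hpA hpB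
    refine ⟨d, t, hd, ?_⟩
    have eA : blow Λ (aff d t A) = up Λ (A.image fun a => d * a + t) := by
      rw [blow_eq]
      congr 1
    have eB : blow' Λ (aff d (-t) B) = down Λ (B.image fun b => d * b - t) := by
      rw [blow'_eq]
      congr 1
      unfold aff
      ext x
      simp only [Finset.mem_image, sub_eq_add_neg]
    rw [eA, eB] at h
    change _ ≤ ‖∑ x ∈ up Λ (A.image fun a => d * a + t),
      ∑ y ∈ down Λ (B.image fun b => d * b - t), χ (x + y)‖ + _ at h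
    change _ / 2 * ‖∑ a ∈ A, ∑ b ∈ B, χ (a + b)‖ ≤ _ at h
    have hm0 : (0 : ℝ) < Λ.card := by exact_mod_cast hm1
    have hM0 : (0 : ℝ) < A.card := by exact_mod_cast hA1
    have hN0 : (0 : ℝ) < B.card := by exact_mod_cast hB1
    have e1 : Real.sqrt (2 * Λ.card / A.card) = Real.sqrt (2 * Λ.card) / Real.sqrt A.card :=
      Real.sqrt_div (by positivity) _
    have e2 : Real.sqrt (2 * Λ.card / B.card) = Real.sqrt (2 * Λ.card) / Real.sqrt B.card :=
      Real.sqrt_div (by positivity) _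
    have hM2 : (A.card : ℝ) = Real.sqrt A.card ^ 2 := (Real.sq_sqrt hM0.le).symm
    have hN2 : (B.card : ℝ) = Real.sqrt B.card ^ 2 := (Real.sq_sqrt hN0.le).symm
    have hsM : 0 < Real.sqrt A.card := Real.sqrt_pos.2 hM0
    have hsN : 0 < Real.sqrt B.card := Real.sqrt_pos.2 hN0
    rw [e1, e2]
    generalize ‖∑ a ∈ A, ∑ b ∈ B, χ (a + b)‖ = S at *
    generalize ‖∑ x ∈ up Λ (A.image fun a => d * a + t),
      ∑ y ∈ down Λ (B.image fun b => d * b - t), χ (x + y)‖ = S' at *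
    generalize Real.sqrt (A.card : ℝ) = x at *
    generalize Real.sqrt (B.card : ℝ) = y at *
    generalize Real.sqrt (2 * (Λ.card : ℝ)) = r at *
    generalize (Λ.card : ℝ) = m at *
    rw [hM2, hN2]
    rw [div_le_iff₀ (by positivity)]
    have h5 : S ≤ 2 / m * (S' + r * (m * x * y) * (x + y)) := by
      rw [div_mul_eq_mul_div, le_div_iff₀ hm0]
      linarith
    refine h5.trans (le_of_eq ?_)
    field_simp
    ring
  · intro F u v h1 h2 h3 h4
    rw [struct_iff intervals_system h1 h2 h3 h4]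
    constructor
    · rintro ⟨h, δ, g1, g2, g3, H⟩
      have g4 : h < u := g2.trans_le ((min_le_left _ _).trans (min_le_left _ _))
      exact ⟨h, δ, g1, g2, g3, (intervalUnions_iff F g1 (by linarith) u v δ).2 H⟩
    · rintro ⟨h, δ, g1, g2, g3, H⟩
      have g4 : h < u := g2.trans_le ((min_le_left _ _).trans (min_le_left _ _))
      exact ⟨h, δ, g1, g2, g3, (intervalUnions_iff F g1 (by linarith) u v δ).1 H⟩
  · rw [conj_struct intervals_system]
    constructor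
    · intro H γ h1 h2
      obtain ⟨h, δ, g1, g2, g3, H⟩ := H γ h1 h2
      exact ⟨h, δ, g1, g2, g3, (intervalUnions_iff _ g1 (by linarith) γ γ δ).2 H⟩
    · intro H γ h1 h2
      obtain ⟨h, δ, g1, g2, g3, H⟩ := H γ h1 h2
      exact ⟨h, δ, g1, g2, g3, (intervalUnions_iff _ g1 (by linarith) γ γ δ).1 H⟩

end Pool.Agent.Results.MP_f6e9a2_nt.UnionsOfIntervals
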